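import Pool.Agent.W619.Y.Main
import Pool.Agent.V1174.GT.A
import Pool.Agent.V1174.GT.B

/-!
# Mixed quotients of products: pseudo-geometric hyperbolicity and general type

The implication from pseudo-geometrically hyperbolic to general type, over any algebraically closed field of
characteristic zero, for the varieties `X` which are birational to the quotient of the product of a variety `Y` of
general type (for instance a point) and of arbitrary curves by a finite group, which may permute the curves.
-/

set_option autoImplicit false
set_option linter.overlappingInstances false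

universe u v

open FF IntermediateField Pool.Agent.W619.PQ Pool.Agent.W619.PL Pool.Agent.W619.TW
  Pool.Agent.W619.X Pool.Agent.W619.Y

namespace Pool.Agent.Results.MP_5b1cbc_ag.MixedQuotients

/-- Let `Y` be a projective variety of dimension `d` with function field `M`, of general type (`KodTr k M d d`; for
instance a point), `F i` (`i < n`) the function fields of curves `C i`, `Z` the product of `Y` and the curves, with
function field `L` (`hsup`), `G` a finite group of automorphisms of `L` which permutes the curves through `σ`, and `X`
a projective variety birational to `Z / G`. Assume `MixedPos`, for instance that the fixed locus of each `g ≠ 1` in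
`G` on the product of the curves is empty or of codimension at least `7`. Either none of the curves is rational or
elliptic, `X` is of general type and there is no dominant rational map from `Y' × E` to `X`, where `E` is a
rational or elliptic curve and `Y'` a variety of dimension `dim X - 1`; or one of the curves is rational or elliptic,
there is such a map, and `X` is not of general type. In the second case `X` is not pseudo-geometrically hyperbolic: the
composites of a nonconstant map from `E` to `X` with the endomorphisms of the pointed curve `(E, c)` are infinitely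
many morphisms with the same value at `c`. In particular `X` is of general type if it is pseudo-geometrically
hyperbolic. -/
theorem result {k : Type v} [Field k] [CharZero k] [IsAlgClosed k] {L : Type u} [Field L] [Algebra k L] (d n : ℕ)
    (hn : Algebra.trdeg k L = (d + n : ℕ))
    (M : IntermediateField k L) [Algebra.EssFiniteType k M] (hM : Algebra.trdeg k M = d)
    (F : Fin n → IntermediateField k L) (hF : ∀ i, IsFF k (F i))
    (hsup : M ⊔ (⨆ i, F i) = ⊤)
    (G : Subgroup (L ≃ₐ[k] L)) [Finite G] (σ : G →* Equiv.Perm (Fin n))
    (hσ : ∀ (g : G) i, ∀ z ∈ F i, (g : L ≃ₐ[k] L) z ∈ F (σ g i))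
    (h : MixedPos G σ F) (hY : KodTr k M d d) :
    ((∀ i, ¬ (∃ t : F i, k⟮t⟯ = ⊤) ∧ ¬ IsElliptic (F i)) ∧
      KodTr k (fixedField G) (d + n) (d + n) ∧
      KodGe k (fixedField G) (d + n) (fun _ => False) (d + n) ∧
      ¬ IsRatEllCovered k (fixedField G) (d + n)) ∨
    ((∃ i, (∃ t : F i, k⟮t⟯ = ⊤) ∨ IsElliptic (F i)) ∧
      ¬ KodTr k (fixedField G) (d + n) (d + n) ∧
      IsRatEllCovered k (fixedField G) (d + n)) := by
  have htr : Algebra.trdeg k (fixedField G) = (d + n : ℕ) := by
    have hfinL : FiniteDimensional (fixedField G) L := by
      have hGal : IsGaloisGroup G (fixedField G) L := isGaloisGroup_fixed G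
      exact IsGaloisGroup.finiteDimensional G (fixedField G) L
    rw [← hn, ← trdeg_add_eq k (fixedField G) (A := L),
      trdeg_eq_zero (R := fixedField G) (A := L), add_zero]
  by_cases hc : ∃ i, (∃ t : F i, k⟮t⟯ = ⊤) ∨ IsElliptic (F i)
  · obtain ⟨i, hi⟩ := hc
    have hcov := Pool.Agent.V1174.GT.covered hn M hM F hsup G i hi
    exact Or.inr ⟨⟨i, hi⟩, Pool.Agent.V1174.GT.not_kodTr_of_covered (d + n) htr hcov, hcov⟩
  · push Not at hc
    left
    obtain ⟨h1, -⟩ := abM d n hn M hM F (alg_of_top M F hsup) G σ hσ h
    have h2 : ∀ i, ¬ ∃ t : F i, k⟮t⟯ = ⊤ := fun i hi => by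
      obtain ⟨t, ht⟩ := hi
      exact (hc i).1 t ht
    have h4 : {i | ¬ IsElliptic (F i)} = Set.univ := Set.eq_univ_of_forall fun i => (hc i).2
    have h3 := h1 h2 d hY
    rw [h4, Set.ncard_univ, Nat.card_eq_fintype_card, Fintype.card_fin] at h3
    exact ⟨fun i => ⟨h2 i, (hc i).2⟩, h3.1, h3.2,
      fun hcov => Pool.Agent.V1174.GT.not_kodTr_of_covered (d + n) htr hcov h3.1⟩

end Pool.Agent.Results.MP_5b1cbc_ag.MixedQuotients
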