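import Pool.Agent.V1153.FB.PtC

/-!
# Families of morphisms from pointed varieties

`X` is the complement of the hypersurface `Q = 0` in the integral closed subvariety of projective
`n`-space over the complex numbers with the ideal `I` (`X` is projective if `Q = 1`). A pointed
variety is given by a ring `R` over the complex numbers (the coordinate ring, or the local ring at the
point, of a variety `Y`), contained in a field `L` of at most the cardinality of the continuum, and a
point `c : R → ℂ` of its spectrum.

Theorem: the following are equivalent.
1. `X` is not covered by curves of the punctured line (`X` is not uniruled if `Q = 1`);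
2. (`PtUniform`) for every type `(s, r, e)` there are a proper closed subset `Z` of `X` and a number
   `B` such that for every pointed variety `(Y, y)` and every `x` outside of `Z` every family of
   morphisms `f_h : (Y, y) → (X, x)`, `h` in any group, given by iterated recurrences of type
   `(s, r, e)`, has at most `B` members;
3. (`PtPowers`) for every `e` there is a proper closed subset `Z` of `X` such that for every `x`
   outside of `Z` every sequence of morphisms `f_k : (ℂˣ, 1) → (X, x)`, `k ∈ ℤ`, of type `(1, 1, e)`
   has only finitely many members.
They hold if `X` is of log general type, and if (`PseudoGeometric`) for some proper closed subset `Z`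
of `X` and all `x` outside of `Z` there are only finitely many morphisms `(ℂˣ, 1) → (X, x)`.
-/

set_option autoImplicit false

namespace Pool.Agent.Results.MP_5b1cbc_ag.PointedFamilies

open MvPolynomial Pool.Agent.V1153.FB Pool.Agent.V1153.UG
open Pool.Agent.TH143.GT (FunField)
open Pool.Agent.W602.GT (LogGeneralType)
open Pool.Agent.W603.GR (OffQ)

/-- **Morphisms from pointed varieties.** -/
theorem result (n : ℕ) (I : Ideal (MvPolynomial (Fin (n + 1)) ℂ)) (hI : I.IsPrime)
    (Q : MvPolynomial (Fin (n + 1)) ℂ) (q : ℕ) (hQ : Q.IsHomogeneous q) :
    List.TFAE [¬ GmRuled I Q, PtUniform I Q, PtPowers I Q] ∧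
      (PseudoGeometric I Q ∨ (∃ (K : Type) (_ : Field K) (_ : Algebra ℂ K) (w : ℕ)
        (y : Fin (n + 1) → K), FunField I Q K w y ∧ LogGeneralType ℂ K w (OffQ Q q y)) →
          ¬ GmRuled I Q) := by
  obtain ⟨h1, h2⟩ := pt_tfae hI hQ
  refine ⟨h1, fun h => ?_⟩
  rcases h with h | ⟨K, _, _, w, y, hy, hL⟩
  · exact h2 h
  · exact not_ruled_of_lgt hQ hy hL

end Pool.Agent.Results.MP_5b1cbc_ag.PointedFamilies
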